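import Pool.Agent.H44.SO.Basic

/-!
# Row SYN of the board `sot_modules`: systems of copies
-/

set_option autoImplicit false

namespace Pool.Agent.H85.SO.SYN

open Pool.Agent.H44.SO Pool.Agent.H57.SO Pool.Agent.H68.BP Pool.Agent.H58.SF Pool.Agent.H53.GC
open Pool.Agent.H53.NR Function
open Pool.Agent.H57.EQ (Cx Tour)

theorem pf_SYN (hC : T_CFG) : T_SYN := by
  intro σ V S X _ P 𝔸 M c hs W R _ _ rk u r hrk hr
  classical
  have hc := hs.col
  have hd1 : ∀ x y, (r x y ∧ u x ≠ u y) → (if r x y ∧ u x ≠ u y then cD P c (u x) (u y) else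
      P.fr (vt P c (u x)) (vt P c (u y))) = cD P c (u x) (u y) := fun x y h => if_pos h
  have hd2 : ∀ x y, ¬ (r x y ∧ u x ≠ u y) → (if r x y ∧ u x ≠ u y then cD P c (u x) (u y) else
      P.fr (vt P c (u x)) (vt P c (u y))) = P.fr (vt P c (u x)) (vt P c (u y)) :=
    fun x y h => if_neg h
  obtain ⟨f, hf, hft, hfc⟩ := hC σ V S X P 𝔸 M c hs W R rk (fun x => vt P c (u x))
    (fun x y => if r x y ∧ u x ≠ u y then cD P c (u x) (u y) else
      P.fr (vt P c (u x)) (vt P c (u y))) hrk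
    (by
      intro x y hxy
      show (if r y x ∧ u y ≠ u x then cD P c (u y) (u x) else
        P.fr (vt P c (u y)) (vt P c (u x))) = P.rv (if r x y ∧ u x ≠ u y then
          cD P c (u x) (u y) else P.fr (vt P c (u x)) (vt P c (u y)))
      by_cases h : r x y ∧ u x ≠ u y
      · rw [hd1 x y h, hd1 y x ⟨hr x y h.1, h.2.symm⟩]
        exact cD_of_inr (hc.swap _ _ _ (cD_of_ne hc h.2))
      · rw [hd2 x y h, hd2 y x fun h' => h ⟨hr y x h'.1, h'.2.symm⟩, P.rv_fr])
    (by
      intro K hK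
      refine ⟨u, fun x _ => Col.vt hc (u x), fun x hx y hy hxy => ?_⟩
      have h1 : r x y ∧ u x ≠ u y := by
        by_contra h
        exact hK x hx y hy hxy (hd2 x y h)
      show c (u x) (u y) = Sum.inr (if r x y ∧ u x ≠ u y then cD P c (u x) (u y) else
        P.fr (vt P c (u x)) (vt P c (u y)))
      rw [hd1 x y h1]
      exact cD_of_ne hc h1.2)
  refine ⟨f, hf, fun x => ?_, fun x y hxy => ⟨fun h1 h2 => ?_, fun h => ?_⟩⟩
  · rw [hft x, Col.vt hc (u x)]
  · have h3 : c (f x) (f y) = Sum.inr (if r x y ∧ u x ≠ u y then cD P c (u x) (u y) else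
        P.fr (vt P c (u x)) (vt P c (u y))) := hfc x y hxy
    rw [h3, hd1 x y ⟨h1, h2⟩]
    exact (cD_of_ne hc h2).symm
  · have h3 : c (f x) (f y) = Sum.inr (if r x y ∧ u x ≠ u y then cD P c (u x) (u y) else
        P.fr (vt P c (u x)) (vt P c (u y))) := hfc x y hxy
    rw [h3, hd2 x y h]

end Pool.Agent.H85.SO.SYN
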